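import Pool.Agent.Helper95.XT.Form

/-!
# Steepness at the cut (MP_c5a4e2_lc)

If the values `w (f (b))`, `b` in the ring of `w`, have no least element (multiplicatively), then
the minimal value on the balls `w a ≤ w r`, `1 < w r`, drops faster than every power of `w r`.
-/

namespace Pool.Agent.Helper21.XT

open MvPolynomial Pool.Agent.Helper23.XT Pool.Agent.Helper95.XT

variable {K Γ Γ' : Type*} [Field K] [LinearOrderedCommGroupWithZero Γ]
  [LinearOrderedCommGroupWithZero Γ'] {v : Valuation K Γ} {w : Valuation K Γ'}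

/-- steepness at a cut without least element: `k` and the size `w ρ` are arbitrary -/
theorem steep (hv : Extremal v) (hvw : ∀ x, v x ≤ 1 → w x ≤ 1)
    {P : Polynomial K} (hP : P.Monic) (hd : 0 < P.natDegree)
    (hc : ∀ i, w (P.coeff i) ≤ 1) (hroot : ∀ x, w x ≤ 1 → w (P.eval x) = 1)
    {n : ℕ} (f : MvPolynomial (Fin n) K)
    (hno : ¬ ∃ a : Fin n → K, (∀ i, w (a i) ≤ 1) ∧
      ∀ b : Fin n → K, (∀ i, w (b i) ≤ 1) → w (eval a f) ≤ w (eval b f))
    (k : ℕ) {ρ : K} (hρ : 1 < w ρ) :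
    ∃ r : K, 1 < w r ∧ w r ≤ w ρ ∧ ∃ a : Fin n → K, (∀ i, w (a i) ≤ w r) ∧
      ∀ b : Fin n → K, (∀ i, w (b i) ≤ 1) → w (eval a f) * w r ^ k ≤ w (eval b f) := by
  classical
  set d := P.natDegree with hdd
  -- the constant e
  have hρ0 : ρ ≠ 0 := by
    rintro rfl
    simp at hρ
  obtain ⟨e, he⟩ : ∃ e : K, e = ρ⁻¹ := ⟨_, rfl⟩
  have he0 : e ≠ 0 := by rw [he]; exact inv_ne_zero hρ0
  have hwe0 : 0 < w e := zero_lt_iff.2 ((Valuation.ne_zero_iff w).2 he0)
  have hwe : w e < 1 := by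
    rw [he, map_inv₀]
    exact inv_lt_one_of_one_lt₀ hρ
  -- no zero at the origin
  have hf0 : eval (0 : Fin n → K) f ≠ 0 := by
    intro h0
    apply hno
    refine ⟨0, fun i => by simp, fun b hb => ?_⟩
    rw [h0, map_zero]
    exact zero_le
  obtain ⟨C0, hC0⟩ : ∃ C0 : K, C0 = eval (0 : Fin n → K) f * e ^ k / (e * e) := ⟨_, rfl⟩
  have hC00 : C0 ≠ 0 := by
    rw [hC0]
    exact div_ne_zero (mul_ne_zero hf0 (pow_ne_zero _ he0)) (mul_ne_zero he0 he0)
  -- the polynomial
  let fX : MvPolynomial (Fin n ⊕ Fin 2) K :=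
    aeval (fun i => X (Sum.inl i) * X (Sum.inr 0) * C (e⁻¹)) f
  let A : MvPolynomial (Fin n ⊕ Fin 2) K := fX * X (Sum.inr 0) ^ k
  let B : MvPolynomial (Fin n ⊕ Fin 2) K := C C0 * (X (Sum.inr 1) * X (Sum.inr 0) - C e)
  let E : MvPolynomial (Fin n ⊕ Fin 2) K :=
    ∑ i ∈ Finset.range (d + 1), C (P.coeff i) * A ^ i * B ^ (d - i)
  have hfX : ∀ c : Fin n ⊕ Fin 2 → K,
      eval c fX = eval (fun i => c (Sum.inl i) * c (Sum.inr 0) * e⁻¹) f := by
    intro c
    change eval c (aeval (fun i => X (Sum.inl i) * X (Sum.inr 0) * C (e⁻¹)) f) = _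
    rw [← coe_aeval_eq_eval, ← coe_aeval_eq_eval]
    change aeval c (aeval _ f) = aeval _ f
    have : (aeval c : MvPolynomial (Fin n ⊕ Fin 2) K →ₐ[K] K).comp
        (aeval (fun i => (X (Sum.inl i) * X (Sum.inr 0) * C (e⁻¹) :
          MvPolynomial (Fin n ⊕ Fin 2) K))) =
        aeval (fun i => c (Sum.inl i) * c (Sum.inr 0) * e⁻¹) := by
      ext i
      simp
    exact DFunLike.congr_fun this f
  have hE : ∀ c : Fin n ⊕ Fin 2 → K,
      eval c E = ∑ i ∈ Finset.range (d + 1), P.coeff i *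
        (eval (fun i => c (Sum.inl i) * c (Sum.inr 0) * e⁻¹) f * c (Sum.inr 0) ^ k) ^ i *
        (C0 * (c (Sum.inr 1) * c (Sum.inr 0) - e)) ^ (d - i) := by
    intro c
    change eval c (∑ i ∈ Finset.range (d + 1), C (P.coeff i) * A ^ i * B ^ (d - i)) = _
    rw [map_sum]
    refine Finset.sum_congr rfl fun i _ => ?_
    rw [map_mul, map_mul, map_pow, map_pow, eval_C]
    congr 2
    · change (eval c (fX * X (Sum.inr 0) ^ k)) ^ i = _
      rw [map_mul, hfX, map_pow, eval_X]
    · change (eval c (C C0 * (X (Sum.inr 1) * X (Sum.inr 0) - C e))) = _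
      simp
  have hwE : ∀ c : Fin n ⊕ Fin 2 → K,
      w (eval c E) = (max (w (eval (fun i => c (Sum.inl i) * c (Sum.inr 0) * e⁻¹) f *
        c (Sum.inr 0) ^ k)) (w (C0 * (c (Sum.inr 1) * c (Sum.inr 0) - e)))) ^ d := by
    intro c
    rw [hE]
    exact val_form hP hd hc hroot _ _
  obtain ⟨c, hcv, hmin⟩ := hv.fintype E
  -- test points
  have htest : ∀ (b : Fin n → K) (z : K), 1 ≤ v z → w z = 1 → (∀ i, v (b i) ≤ v z) →
      w (eval c E) ≤ (w (eval b f) * w e ^ k) ^ d := by
    intro b z hz1 hwz hbz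
    have hz0 : z ≠ 0 := by
      rintro rfl
      simp at hwz
    have hvz0 : 0 < v z := zero_lt_iff.2 ((Valuation.ne_zero_iff v).2 hz0)
    have hvE := hmin (Sum.elim (fun i => b i / z) ![e * z, z⁻¹]) (by
      rintro (i | i)
      · simp only [Sum.elim_inl]
        rw [map_div₀]
        exact div_le_one_of_le₀ (hbz i) zero_le
      · fin_cases i
        · simp only [Sum.elim_inr]
          change v (e * z) ≤ 1
          refine le_of_lt (v_lt_one_of_w_lt_one hvw ?_)
          rw [map_mul, hwz, mul_one]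
          exact hwe
        · change v (z⁻¹) ≤ 1
          rw [map_inv₀]
          exact inv_le_one_of_one_le₀ hz1)
    have h1 := w_le_of_v_le hvw hvE
    refine h1.trans (le_of_eq ?_)
    rw [hwE]
    congr 1
    have e1 : (fun i => (Sum.elim (fun i => b i / z) ![e * z, z⁻¹] : Fin n ⊕ Fin 2 → K)
        (Sum.inl i) * (Sum.elim (fun i => b i / z) ![e * z, z⁻¹] : Fin n ⊕ Fin 2 → K)
        (Sum.inr 0) * e⁻¹) = b := by
      funext i
      change b i / z * (e * z) * e⁻¹ = b i
      field_simp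
    have e2 : C0 * ((Sum.elim (fun i => b i / z) ![e * z, z⁻¹] : Fin n ⊕ Fin 2 → K)
        (Sum.inr 1) * (Sum.elim (fun i => b i / z) ![e * z, z⁻¹] : Fin n ⊕ Fin 2 → K)
        (Sum.inr 0) - e) = 0 := by
      change C0 * (z⁻¹ * (e * z) - e) = 0
      field_simp
      ring
    rw [e1, e2, map_zero]
    change max (w (eval b f * (e * z) ^ k)) 0 = _
    rw [max_eq_left zero_le, map_mul, map_pow, map_mul, hwz, mul_one]
  have hdpos : d ≠ 0 := hd.ne'
  -- the optimum satisfies the constraint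
  have hW0 := htest 0 1 (by simp) (by simp) (fun i => by simp)
  have hmax : max (w (eval (fun i => c (Sum.inl i) * c (Sum.inr 0) * e⁻¹) f *
        c (Sum.inr 0) ^ k)) (w (C0 * (c (Sum.inr 1) * c (Sum.inr 0) - e))) ≤
        w (eval (0 : Fin n → K) f) * w e ^ k := by
    rw [hwE] at hW0
    exact le_of_pow_le_pow_left₀ hdpos zero_le hW0
  have hpen : w (C0 * (c (Sum.inr 1) * c (Sum.inr 0) - e)) < w C0 * w e := by
    refine lt_of_le_of_lt ((le_max_right _ _).trans hmax) ?_
    have : w C0 * w e = w (eval (0 : Fin n → K) f) * w e ^ k / w e := by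
      rw [hC0, map_div₀, map_mul, map_mul, map_pow]
      field_simp
    rw [this, lt_div_iff₀ hwe0]
    have h0 : 0 < w (eval (0 : Fin n → K) f) * w e ^ k := by
      refine zero_lt_iff.2 (mul_ne_zero ((Valuation.ne_zero_iff w).2 hf0) (pow_ne_zero _ hwe0.ne'))
    calc w (eval (0 : Fin n → K) f) * w e ^ k * w e
        < w (eval (0 : Fin n → K) f) * w e ^ k * 1 := by
          exact mul_lt_mul_of_pos_left hwe h0
      _ = _ := mul_one _
  have hlt : w (c (Sum.inr 1) * c (Sum.inr 0) - e) < w e := by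
    rw [map_mul] at hpen
    exact lt_of_mul_lt_mul_left' hpen
  have hvlt : v (c (Sum.inr 1) * c (Sum.inr 0) - e) < v e := v_lt_of_w_lt hvw hlt
  have hweq : w (c (Sum.inr 1) * c (Sum.inr 0)) = w e := by
    have := Valuation.map_add_eq_of_lt_right w hlt
    simpa using this
  have hY : w (c (Sum.inr 1)) ≤ 1 := hvw _ (hcv _)
  have hZ : w (c (Sum.inr 0)) ≤ 1 := hvw _ (hcv _)
  have hZ0 : c (Sum.inr 0) ≠ 0 := by
    intro h
    rw [h, mul_zero, map_zero] at hweq
    exact hwe0.ne hweq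
  -- the radius
  have hrw : w (c (Sum.inr 0) * e⁻¹) = w (c (Sum.inr 0)) / w e := by
    rw [map_mul, map_inv₀, div_eq_mul_inv]
  have h1r : 1 ≤ w (c (Sum.inr 0) * e⁻¹) := by
    rw [hrw, one_le_div₀ hwe0, ← hweq, map_mul]
    exact mul_le_of_le_one_left' hY
  have hrρ : w (c (Sum.inr 0) * e⁻¹) ≤ w ρ := by
    rw [map_mul, he, inv_inv]
    exact mul_le_of_le_one_left' hZ
  have ha : ∀ i, w (c (Sum.inl i) * c (Sum.inr 0) * e⁻¹) ≤ w (c (Sum.inr 0) * e⁻¹) := by
    intro i
    rw [mul_assoc, map_mul]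
    exact mul_le_of_le_one_left' (hvw _ (hcv _))
  have hopt : ∀ b : Fin n → K, (∀ i, w (b i) ≤ 1) →
      w (eval (fun i => c (Sum.inl i) * c (Sum.inr 0) * e⁻¹) f) *
        w (c (Sum.inr 0) * e⁻¹) ^ k ≤ w (eval b f) := by
    intro b hb
    -- a common bound z of 1 and the coordinates of b
    obtain ⟨z, hz1, hwz, hbz⟩ : ∃ z : K, 1 ≤ v z ∧ w z = 1 ∧ ∀ i, v (b i) ≤ v z := by
      have hne : (Finset.univ : Finset (Option (Fin n))).Nonempty := Finset.univ_nonempty
      obtain ⟨j, -, hj⟩ := Finset.exists_max_image Finset.univ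
        (fun o : Option (Fin n) => v (o.elim 1 b)) hne
      refine ⟨j.elim 1 b, ?_, ?_, fun i => hj (some i) (Finset.mem_univ _)⟩
      · have := hj none (Finset.mem_univ _)
        simpa using this
      · have h1 : 1 ≤ w (j.elim 1 b) := by
          have := hj none (Finset.mem_univ _)
          have h2 := w_le_of_v_le hvw this
          simpa using h2
        refine le_antisymm ?_ h1
        cases j with
        | none => simp
        | some i => exact hb i
    have h2 := htest b z hz1 hwz hbz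
    rw [hwE] at h2
    have h3 := le_of_pow_le_pow_left₀ hdpos zero_le h2
    have h4 := (le_max_left _ _).trans h3
    rw [map_mul, map_pow] at h4
    rw [hrw, div_pow, ← mul_div_assoc, div_le_iff₀ (pow_pos hwe0 k)]
    exact h4
  refine ⟨c (Sum.inr 0) * e⁻¹, lt_of_le_of_ne h1r ?_, hrρ, _, ha, hopt⟩
  intro h1
  apply hno
  refine ⟨fun i => c (Sum.inl i) * c (Sum.inr 0) * e⁻¹, fun i => (ha i).trans h1.ge, ?_⟩
  intro b hb
  have := hopt b hb
  rwa [← h1, one_pow, mul_one] at this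

end Pool.Agent.Helper21.XT
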